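import Pool.Agent.H829.CE.HgTree3
import Pool.Agent.H829.CE.HgSpine2

/-!
# Groups of tree automorphisms of bounded activity with the Haagerup property

Let the countable group `G` act faithfully by automorphisms on a spherically homogeneous rooted tree with
finite sets of letters. Suppose that every group of germs of `G` at a point of the boundary of the tree
has a normal subgroup `C` which is coherent and has the Haagerup property, such that the quotient by
`C` is amenable.

(1) If every element of `G` has only finitely many singular points (boundary points all of whose
prefixes have non-trivial sections), and if the action on the boundary is extensively amenable, then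
`G` has the Haagerup property.

(2) The two conditions of (1) are satisfied if `G` has bounded activity, i.e. if for every finite set of
elements the number of non-trivial sections on the level `n` is bounded for infinitely many `n`.

So the groups of germs may be amenable groups (then `G` is amenable by theorems of Bartholdi,
Kaimanovich and Nekrashevych and of Juschenko, Nekrashevych and de la Salle), but also for instance free
groups, surface groups or coherent one-relator groups with the Haagerup property, and extensions of
such groups by amenable groups; then `G` is in general not amenable.

(3) Spinal groups. Let `B` be a countable coherent group with the Haagerup property, and let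
homomorphisms from `B` to the symmetric groups of the sets of letters be given such that every
`b ≠ 1` has a non-trivial image under infinitely many of them (they exist if and only if `B` is
residually finite, for suitable finite sets of letters; for instance for free groups, surface groups
and the fundamental groups of closed hyperbolic 3-manifolds). Let `B` act on the tree by directed
automorphisms along a ray with these decorations. Then the group that is generated by `B` and any
countable set of finitary automorphisms has the Haagerup property. It contains `B`, so it is not
amenable if `B` is not amenable.

The proof: by the criterion `HaagerupThroughSubgroupoids` it is enough to treat the groups `P` of elements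
that fix the points of a finite set `E` and have a trivial section near every other point. Since the
class of groups with the Haagerup property is not closed under extensions with locally finite
kernels, the Haagerup property of the groups of germs is not enough here. For a finitely generated
subgroup `Λ` of `P` whose germs belong to the subgroups `C`, the elements with trivial germ at `x` are
the normal closure in `Λ` of finitely many elements by coherence; these are trivial on a fixed cylinder
around `x`, which is invariant under `Λ`, and so are their conjugates. It follows that the elements
of `Λ` with trivial germs at all points of `E` form a finite group.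

`Haagerup` is in `Pool/Agent/H829/CE/HgDefs.lean`, `Coherent` and `FolnerAmenable` in
`Pool/Agent/H829/CE/HgTree2.lean`, `ExtensivelyAmenable` in `Pool/Agent/H829/CE/HgOff.lean`, `TreeAction`,
`GermGroup` and `BoundedActivity` in `Pool/Agent/H829/EG/TreeDefs.lean`, `Sing` and `Reg` in
`Pool/Agent/H829/EG/Tree.lean`, `spinal`, `Finitary` and `spinalGroup` in
`Pool/Agent/H829/CE/SpineDefs.lean`.
-/

set_option autoImplicit false

namespace Pool.Agent.Results.MP_b169d2_gt.BoundedActivityGroups

open Pool.Agent.H829.CE Pool.Agent.H829.EG

universe u v

theorem result :
    (∀ (G : Type u) (α : ℕ → Type v) [Group G] [Countable G] [MulAction G ((n : ℕ) → α n)]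
      [TreeAction G α] [FaithfulSMul G ((n : ℕ) → α n)] [∀ n, Finite (α n)],
      (∀ x : (n : ℕ) → α n, ∃ (C : Subgroup (GermGroup G x)) (_ : C.Normal),
        Coherent C ∧ Haagerup C ∧ FolnerAmenable (GermGroup G x ⧸ C)) →
      -- (1) the general theorem
      ((∀ g : G, (Sing (α := α) g).Finite) → ExtensivelyAmenable G ((n : ℕ) → α n) →
        Haagerup G) ∧
      -- (2) bounded activity
      (BoundedActivity G α → (∀ g : G, (Sing (α := α) g).Finite) ∧
        ExtensivelyAmenable G ((n : ℕ) → α n))) ∧
    -- (3) spinal groups
    (∀ (B : Type v) [Group B] [Countable B] (α : ℕ → Type v) [∀ n, Finite (α n)]
      (o p : (n : ℕ) → α n) (hp : ∀ n, p n ≠ o n) (ω : (n : ℕ) → B →* Equiv.Perm (α (n + 1)))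
      (T : Set (Equiv.Perm ((n : ℕ) → α n))), T.Countable → (∀ t ∈ T, Finitary t) →
      (∀ b : B, b ≠ 1 → ∀ n, ∃ m, n ≤ m ∧ ω m b ≠ 1) → Coherent B → Haagerup B →
      Haagerup (spinalGroup o p hp ω T) ∧ Function.Injective (spinal o p hp ω)) :=
  ⟨fun G α _ _ _ _ _ _ germs => ⟨fun hs hX => tree_haagerup_of_sing hs hX germs,
      fun hb => ⟨fun g => sing_finite hb g, (tree_recurrent hb).extensivelyAmenable⟩⟩,
    fun B _ _ α _ o p hp ω T hTc hT hω hco hB =>
      ⟨spinal_haagerup hp ω hT hTc hω hB hco, spinal_injective hp ω hω⟩⟩

end Pool.Agent.Results.MP_b169d2_gt.BoundedActivityGroups
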