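import Pool.Agent.H829.CE.HgMain
import Pool.Agent.H829.CE.HgRec

/-!
# The Haagerup property over `G`-sets, and the Stolz conjecture

If the group `Γ` has the Haagerup property then the Baum-Connes conjecture holds for `Γ` (Higson and
Kasparov), also with real coefficients (Baum and Karoubi), and the map `θ` of Stolz is surjective. The
Haagerup property does not pass to extensions, not even to permutational wreath products
`(ℤ/2) ≀_X G`. We determine it for all groups that are local over a `G`-set `X`, in terms of the
single group `(ℤ/2) ≀_X G`. The group `G` and the `G`-set `X` are arbitrary.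

(1) The following are equivalent.

* `L ≀_X G` has the Haagerup property for some group `L ≠ 1`;
* `L ≀_X G` has the Haagerup property for all groups `L` with the Haagerup property;
* all groups `Γ` with a homomorphism `Γ → G` with local Haagerup kernel over `X` have the Haagerup
  property.

The following homomorphisms have local Haagerup kernel over `X`.

(2) The projection `N ⋊ G → G` of a halo product, where `L(S)`, `S ⊆ X`, is a halo of groups in the
sense of Genevois and Tessera, with `L(S)` finite for finite `S`, and `g L(S) g⁻¹ = L(g S)`.

(3) More generally, halo products with a map `b` from `N ⋊ G` to a Hilbert space, such that the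
distances are invariant and `b` is proper on the subgroups `L(S)`, `S` finite.

(4) The projection `W ⋊ G → G`, where `(W, (s_x)_{x ∈ X})` is a Coxeter system with an arbitrary
`G`-invariant Coxeter matrix, and `G` acts on `W` by `g s_x g⁻¹ = s_(g x)`.

(5) The projection to `G` of the semidirect product of the group of finitary permutations of `X`
and `G`.

So all these groups have the Haagerup property if `(ℤ/2) ≀_X G` has it.

(6) The conditions of (1) are satisfied if `G` has the Haagerup property, `G` and `X` are countable, and
the action on `X` is recurrent.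

Cornulier, Stalder and Valette proved that they are satisfied if `G` has the Haagerup property and `X = G`,
or if `X = G / K` with a normal subgroup `K` such that `G / K` has the Haagerup property.

The proof of (1): a group `Γ` with a local kernel is mapped to `(ℤ/2) ≀_X G` by means of a random
colouring of the classes of the equivalence relations; the average over all colourings of the
pullbacks of an invariant conditionally negative definite kernel is invariant, although the maps
themselves are not homomorphisms.

`Haagerup` and `LocalHaagerupKernel` are in `Pool/Agent/H829/CE/HgDefs.lean`, `Halo` and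
`Halo.Invariant` in `Pool/Agent/H829/CE/HaloDefs.lean`, `Wreath` and `RecurrentAction` in
`Pool/Agent/H829/CE/WrDefs.lean`,
`FinitaryExt` in `Pool/Agent/H829/CE/FsDefs.lean`.
-/

set_option autoImplicit false

namespace Pool.Agent.Results.MP_b169d2_gt.HaagerupOverSets

open Pool.Agent.H829.CE

universe u

theorem result :
    -- (1) the main theorem
    (∀ (G X : Type u) [Group G] [MulAction G X], List.TFAE [
      ∃ (L : Type u) (_ : Group L), Nontrivial L ∧ Haagerup (Wreath L G X),
      ∀ (L : Type u) [Group L], Haagerup L → Haagerup (Wreath L G X),
      ∀ (Γ : Type u) [Group Γ] (π : Γ →* G), LocalHaagerupKernel X π → Haagerup Γ]) ∧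
    -- (2) halo products, finite pieces
    (∀ (N G X : Type u) [Group N] [Group G] [MulAction G X] (h : Halo N X) (φ : G →* MulAut N),
      h.Invariant G φ → (∀ E : Finset X, (h.L E : Set N).Finite) →
      LocalHaagerupKernel X (SemidirectProduct.rightHom : N ⋊[φ] G →* G)) ∧
    -- (3) halo products, pieces with the Haagerup property
    (∀ (N G X H : Type u) [Group N] [Group G] [MulAction G X] (h : Halo N X) (φ : G →* MulAut N)
      [NormedAddCommGroup H] [InnerProductSpace ℝ H] [CompleteSpace H] (b : N ⋊[φ] G → H),
      h.Invariant G φ → (∀ γ a c, ‖b (γ * a) - b (γ * c)‖ = ‖b a - b c‖) →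
      (∀ (E : Finset X) (C : ℝ),
        {n : N | n ∈ h.L E ∧ ‖b (SemidirectProduct.inl n) - b 1‖ ≤ C}.Finite) →
      LocalHaagerupKernel X (SemidirectProduct.rightHom : N ⋊[φ] G →* G)) ∧
    -- (4) Coxeter groups
    (∀ (W G X : Type u) [Group W] [Group G] [MulAction G X] (M : CoxeterMatrix X)
      (cs : CoxeterSystem M W) (φ : G →* MulAut W),
      (∀ (g : G) (x : X), φ g (cs.simple x) = cs.simple (g • x)) →
      LocalHaagerupKernel X (SemidirectProduct.rightHom : W ⋊[φ] G →* G)) ∧
    -- (5) finitary permutations
    (∀ (G X : Type u) [Group G] [MulAction G X],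
      LocalHaagerupKernel X
        ((MonoidHom.snd (Equiv.Perm X) G).comp (FinitaryExt G X).subtype)) ∧
    -- (6) recurrent actions
    (∀ (G X : Type u) [Group G] [MulAction G X] [Countable G] [Countable X],
      RecurrentAction G X → Haagerup G → ∀ (L : Type u) [Group L], Haagerup L →
      Haagerup (Wreath L G X)) := by
  refine ⟨fun G X _ _ => tfaeH G X, ?_, ?_, ?_, ?_, ?_⟩
  · intro N G X _ _ _ h φ hφ hfin
    exact localH_halo h φ hφ hfin
  · intro N G X H _ _ _ h φ _ _ _ b hφ hb hfin
    exact localH_halo_map h φ hφ b hb hfin
  · intro W G X _ _ _ M cs φ hφ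
    exact localH_cox cs φ hφ
  · intro G X _ _
    exact localH_fs G X
  · intro G X _ _ _ _ hX hG
    have t : (∃ (L : Type u) (_ : Group L), Nontrivial L ∧ Haagerup (Wreath L G X)) ↔
        ∀ (L : Type u) [Group L], Haagerup L → Haagerup (Wreath L G X) := (tfaeH G X).out 0 1
    refine t.mp ⟨ULift.{u} (Multiplicative (ZMod 2)), inferInstance, inferInstance,
      haagerup_recurrent ?_ hX hG⟩
    have h : ∀ a b : Multiplicative (ZMod 2), a * b = 1 ↔ (a = 1 ↔ b = 1) := by decide
    rintro ⟨a⟩ ⟨b⟩
    have h1 := h a b
    rw [← ULift.down_inj, ← ULift.down_inj, ← ULift.down_inj]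
    exact h1

end Pool.Agent.Results.MP_b169d2_gt.HaagerupOverSets
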