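import Pool.Agent.H829.CE.HgVec

/-!
# The Haagerup property through cofinite subgroupoids of extensively amenable actions

Let the countable group `G` act on the set `X`, and let `H` be a wide subgroupoid of the action
groupoid which contains, for every `g` in `G`, all but finitely many of the arrows `(g, x)`. For finite
subsets `E` of `X` let `G_E` be the group of the `g` that preserve `E` and all of whose arrows off `E`
belong to `H`.

(1) If the action is extensively amenable in the sense of Juschenko, Matte Bon, Monod and de la Salle,
then `G` has the Haagerup property if and only if all the groups `G_E` have it. This is the counterpart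
for the Haagerup property of the amenability criterion of these authors and of Juschenko,
Nekrashevych and de la Salle (`G` is amenable if and only if all the `G_E` are).

(2) Recurrent actions are extensively amenable (Juschenko and Monod; Juschenko, Nekrashevych and de la
Salle), so (1) applies to them.

(3) For a general `G`-set `Z` in place of the set of the classes of the pairs `(g, E)`: the group `G` has
the Haagerup property if `ℓ²(Z)` has finitely supported almost invariant unit vectors whose supports
consist of points whose stabilizers have the Haagerup property (the stabilizers may belong to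
infinitely many conjugacy classes of subgroups, each of them of infinite index and none of them
co-amenable).

If a group has the Haagerup property, then the Baum-Connes conjecture holds for it (Higson and
Kasparov), also with real coefficients (Baum and Karoubi), and the map `θ` of Stolz is surjective.

`Haagerup` is in `Pool/Agent/H829/CE/HgDefs.lean`, `CofiniteSubgroupoid` and `offSubgroup` in
`Pool/Agent/H829/EG/Defs.lean`, `ExtensivelyAmenable` in `Pool/Agent/H829/CE/HgOff.lean`,
`RecurrentAction` in `Pool/Agent/H829/CE/WrDefs.lean`.
-/

set_option autoImplicit false

namespace Pool.Agent.Results.MP_b169d2_gt.HaagerupThroughSubgroupoids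

open Pool.Agent.H829.CE Pool.Agent.H829.EG

universe u v

theorem result :
    -- (1) the criterion
    (∀ (G : Type u) (X : Type v) [Group G] [Countable G] [MulAction G X]
      (H : CofiniteSubgroupoid G X), ExtensivelyAmenable G X →
      (Haagerup G ↔ ∀ E : Finset X, Haagerup (H.offSubgroup E))) ∧
    -- (2) recurrent actions
    (∀ (G : Type u) (X : Type v) [Group G] [MulAction G X], RecurrentAction G X →
      ExtensivelyAmenable G X) ∧
    -- (3) almost invariant vectors
    (∀ (G : Type u) (Z : Type v) [Group G] [Countable G] [MulAction G Z],
      (∀ (S : Finset G) (ε : ℝ), 0 < ε → ∃ ξ : Z →₀ ℝ, ∑ z ∈ ξ.support, ξ z ^ 2 = 1 ∧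
        (∀ z ∈ ξ.support, Haagerup (MulAction.stabilizer G z)) ∧
        ∀ s ∈ S, ∀ T : Finset Z, ∑ z ∈ T, (ξ (s • z) - ξ z) ^ 2 ≤ ε) →
      Haagerup G) := by
  refine ⟨fun G X _ _ _ H hX => ⟨fun h E => ?_, fun h => haagerup_of_offSubgroup H hX h⟩,
    fun G X _ _ h => h.extensivelyAmenable, fun G Z _ _ _ h => haagerup_of_vectors h⟩
  exact h.of_injective (H.offSubgroup E).subtype (H.offSubgroup E).subtype_injective

end Pool.Agent.Results.MP_b169d2_gt.HaagerupThroughSubgroupoids
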